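import Pool.Agent.Lib.MP_3aae7f_pr.CritFin

/-!
Answer to Q1: a critical excited random walk on the integers with Markovian cookie stacks is strongly
transient if and only if `max δ δ~ > 3`.
-/

open MeasureTheory ProbabilityTheory

namespace Pool.Agent.Results.MP_3aae7f_pr.Critical

open Pool.Agent.MP_3aae7f_pr

/-- Let `K` be a stochastic matrix with exactly one closed irreducible class, `μ` its stationary
distribution, `0 < p < 1`, `η` an initial distribution, and suppose `μ · p = 1/2`. Then the limits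
`ρ`, `ν` for `(η, K, p)` and `ρ'`, `ν'` for `(η, K, 1 - p)` exist, `ν` and `ν'` are positive, and every
excited random walk in the environment of independent Markovian cookie stacks is strongly transient if
and only if `max (2 ρ / ν) (2 ρ' / ν') > 3`. -/
theorem result {N : ℕ} (K : Fin N → Fin N → ℝ) (p η μ : Fin N → ℝ) (hm : IsCookieModel K p η)
    (hμ : IsStationary K μ) (hcrit : ∑ i, μ i * p i = 1 / 2) :
    ∃ ρ ν ρ' ν' : ℝ, 0 < ν ∧ 0 < ν' ∧ AreParams K p η ρ ν ∧
      AreParams K (fun i => 1 - p i) η ρ' ν' ∧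
      ∀ {Ω : Type*} [MeasurableSpace Ω] (P : Measure Ω) (R : ℤ → ℕ → Ω → Fin N) (X : ℕ → Ω → ℤ),
        IsERW K p η P R X → (StronglyTransient P X ↔ 3 < max (2 * ρ / ν) (2 * ρ' / ν')) := by
  obtain ⟨ρ, ν, ρ', ν', h1, h2, h3, h4, h5⟩ := critical hm hμ hcrit
  have hm' : IsCookieModel K (fun i => 1 - p i) η :=
    { K_nonneg := hm.K_nonneg
      K_sum := hm.K_sum
      K_class := hm.K_class
      p_pos := fun i => by linarith [hm.p_lt i]
      p_lt := fun i => by linarith [hm.p_pos i]
      η_nonneg := hm.η_nonneg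
      η_sum := hm.η_sum }
  exact ⟨ρ, ν, ρ', ν', h1, h2, ⟨exists_coinStack hm, h3⟩, ⟨exists_coinStack hm', h4⟩,
    fun P R X hX => h5 hX⟩

end Pool.Agent.Results.MP_3aae7f_pr.Critical
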