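import Pool.Agent.Lib.MP_3aae7f_pr.Transfer

/-!
Answer to Q2: every non-critical excited random walk on the integers with Markovian cookie stacks is
strongly transient.
-/

open MeasureTheory ProbabilityTheory

namespace Pool.Agent.Results.MP_3aae7f_pr.NonCritical

open Pool.Agent.MP_3aae7f_pr

/-- Let `K` be a stochastic matrix with exactly one closed irreducible class, `μ` its stationary
distribution, `0 < p < 1`, `η` an initial distribution, and suppose `μ · p ≠ 1/2`. Then every excited
random walk in the environment of independent Markovian cookie stacks is strongly transient. -/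
theorem result {N : ℕ} (K : Fin N → Fin N → ℝ) (p η μ : Fin N → ℝ) (hm : IsCookieModel K p η)
    (hμ : IsStationary K μ) (hcrit : ∑ i, μ i * p i ≠ 1 / 2)
    {Ω : Type*} [MeasurableSpace Ω] (P : Measure Ω) (R : ℤ → ℕ → Ω → Fin N) (X : ℕ → Ω → ℤ)
    (hX : IsERW K p η P R X) : StronglyTransient P X :=
  hX.stronglyTransient hm μ hμ hcrit

end Pool.Agent.Results.MP_3aae7f_pr.NonCritical
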